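import Pool.Agent.H81.HE.Cells

/-!
# The edges for `ep = -1`
-/

set_option linter.all false

namespace Pool.Agent.H81.HE

open Pool.Agent.H78.RT
open Pool.Agent.H78.Tie
open Pool.Agent.H78.Tie.TAp
open Pool.Agent.H78.SV
open Pool.Agent.H78.HL (TL OV FT CR Opp W_le_D)

variable {A : TAp} {T : A.Tie} {n U S : ℤ}

theorem ndh (A : TAp) : ¬ (A.p : ℤ) ∣ (A.h : ℤ) := by
  intro h
  have h2 := A.h2
  have h1 := A.hh
  have := Int.le_of_dvd (by omega) h
  omega

theorem ndh' (A : TAp) : ¬ (A.p : ℤ) ∣ -(A.h : ℤ) := by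
  rw [dvd_neg]; exact ndh A

theorem nd1 (A : TAp) : ¬ (A.p : ℤ) ∣ (1 : ℤ) := by
  intro h
  have h2 := A.h2
  have h1 := A.hh
  have := Int.le_of_dvd (by omega) h
  omega

theorem nd1' (A : TAp) : ¬ (A.p : ℤ) ∣ (-1 : ℤ) := by
  rw [dvd_neg]; exact nd1 A

theorem um (o : OV T n U S) (f : FT T n U) (he : T.ep = -1) : 2 ≤ U ∧ U + 1 ≤ A.q * A.w := by
  have p4 : (4 : ℤ) ≤ A.p := by have := A.w2; have := A.hw; omega
  have h1 := f.u
  rw [he] at h1
  have h0 : (A.p : ℤ) ∣ U := by
    have h1 : (A.p : ℤ) ∣ A.a * n - U := (Dvd.intro _ rfl).trans o.cn.1.1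
    have h2 := dvd_sub (A.hpa.mul_right n) h1
    rwa [sub_sub_cancel] at h2
  have h2 := Int.le_of_dvd (by linarith) h0
  have := o.U1
  constructor <;> linarith

theorem sE4a (h : TL T) (o : OV T n U S) (f : FT T n U) (hD : A.D < A.q * A.h) (he : T.ep = -1)
    (hV : U + S < 0) (s1 : 0 ≤ -(A.q * A.h) - S - A.q) : False := by
  obtain ⟨u1, u2⟩ := um o f he
  have V0 := o.V0
  have V1 := o.V1
  rcases A.hsg with hg | hg
  · obtain ⟨r, V, b, h⟩ := pk h o f hD (ndh' A)
    exact c_mpE4a h hg he (by linarith) (by linarith) (by linarith) (by linarith) (by linarith)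
  · obtain ⟨r, V, b, h⟩ := pk h o f hD (ndh' A)
    exact c_mmE4a h hg he (by linarith) (by linarith) (by linarith) (by linarith) (by linarith)

theorem sE4b (h : TL T) (o : OV T n U S) (f : FT T n U) (hD : A.D < A.q * A.h) (he : T.ep = -1)
    (hV : U + S < 0) (s1 : 0 ≤ -(A.q * A.h) - S) (s2 : 0 ≤ S + A.q * A.h) : False := by
  obtain ⟨u1, u2⟩ := um o f he
  have V0 := o.V0
  have V1 := o.V1
  rcases A.hsg with hg | hg
  · obtain ⟨r, V, b, h⟩ := pk h o f hD (nd1' A)
    exact c_mpE4b h hg he (by linarith) (by linarith) (by linarith) (by linarith) (by linarith) (by linarith)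
  · obtain ⟨r, V, b, h⟩ := pk h o f hD (nd1' A)
    exact c_mmE4b h hg he (by linarith) (by linarith) (by linarith) (by linarith) (by linarith) (by linarith)

theorem sE4c (h : TL T) (o : OV T n U S) (f : FT T n U) (hD : A.D < A.q * A.h) (he : T.ep = -1)
    (hV : U + S < 0) (s1 : 0 ≤ S + A.q * A.h - A.q) (s2 : 0 ≤ A.q * A.w - A.q * A.h - S - A.q) : False := by
  obtain ⟨u1, u2⟩ := um o f he
  have V0 := o.V0
  have V1 := o.V1
  rcases A.hsg with hg | hg
  · obtain ⟨r, V, b, h⟩ := pk h o f hD (ndh A)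
    exact c_mpE4c h hg he (by linarith) (by linarith) (by linarith) (by linarith) (by linarith) (by linarith)
  · obtain ⟨r, V, b, h⟩ := pk h o f hD (ndh' A)
    exact c_mmE4c h hg he (by linarith) (by linarith) (by linarith) (by linarith) (by linarith) (by linarith)

theorem sE4d (h : TL T) (o : OV T n U S) (f : FT T n U) (hD : A.D < A.q * A.h) (he : T.ep = -1)
    (hV : U + S < 0) (s1 : 0 ≤ S + A.q * A.h - A.q * A.w) (s2 : 0 ≤ A.q * A.w - A.q * A.h - S) : False := by
  obtain ⟨u1, u2⟩ := um o f he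
  have V0 := o.V0
  have V1 := o.V1
  rcases A.hsg with hg | hg
  · obtain ⟨r, V, b, h⟩ := pk h o f hD (nd1 A)
    exact c_mpE4d h hg he (by linarith) (by linarith) (by linarith) (by linarith) (by linarith) (by linarith)
  · obtain ⟨r, V, b, h⟩ := pk h o f hD (nd1 A)
    exact c_mmE4d h hg he (by linarith) (by linarith) (by linarith) (by linarith) (by linarith) (by linarith)

theorem sE5 (h : TL T) (o : OV T n U S) (f : FT T n U) (hD : A.D < A.q * A.h) (he : T.ep = -1)
    (hV : 0 < U + S) (s1 : 0 ≤ -S) : False := by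
  obtain ⟨u1, u2⟩ := um o f he
  have V0 := o.V0
  have V1 := o.V1
  rcases A.hsg with hg | hg
  · obtain ⟨r, V, b, h⟩ := pk h o f hD (ndh A)
    exact c_mpE5 h hg he (by linarith) (by linarith) (by linarith) (by linarith) (by linarith)
  · obtain ⟨r, V, b, h⟩ := pk h o f hD (ndh A)
    exact c_mmE5 h hg he (by linarith) (by linarith) (by linarith) (by linarith) (by linarith)

theorem sE6 (h : TL T) (o : OV T n U S) (f : FT T n U) (hD : A.D < A.q * A.h) (he : T.ep = -1)
    (hV : 0 < U + S) (s1 : 0 ≤ S - A.q * A.h + A.q * A.w) : False := by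
  obtain ⟨u1, u2⟩ := um o f he
  have V0 := o.V0
  have V1 := o.V1
  rcases A.hsg with hg | hg
  · obtain ⟨r, V, b, h⟩ := pk h o f hD (nd1' A)
    exact c_mpE6 h hg he (by linarith) (by linarith) (by linarith) (by linarith) (by linarith)
  · obtain ⟨r, V, b, h⟩ := pk h o f hD (nd1' A)
    exact c_mmE6 h hg he (by linarith) (by linarith) (by linarith) (by linarith) (by linarith)

/-- `ep = -1`, `V < 0` -/
theorem edgeE4 (h : TL T) (o : OV T n U S) (f : FT T n U) (hD : A.D < A.q * A.h) (he : T.ep = -1)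
    (hV : U + S < 0) (hS : S ≤ A.q * A.w - A.q * A.h) : False := by
  have hq := A.q_pos'
  obtain ⟨z, hz, -⟩ := o.cn.1.2.1
  have mq : ∀ {a b : ℤ}, a ≤ b → (A.q : ℤ) * a ≤ A.q * b :=
    fun h => mul_le_mul_of_nonneg_left h hq.le
  rcases lt_trichotomy z (-(A.h : ℤ)) with h1 | h1 | h1
  · refine sE4a h o f hD he hV ?_
    have := mq (show z + 1 ≤ -(A.h : ℤ) by omega)
    rw [hz]; linarith
  · refine sE4b h o f hD he hV ?_ ?_ <;> rw [hz, h1] <;> linarith
  · rcases lt_or_ge z (A.w - A.h : ℤ) with h2 | h2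
    · refine sE4c h o f hD he hV ?_ ?_
      · have := mq (show -(A.h : ℤ) + 1 ≤ z by omega)
        rw [hz]; linarith
      · have := mq (show z + 1 ≤ (A.w - A.h : ℤ) by omega)
        rw [hz]; linarith
    · refine sE4d h o f hD he hV ?_ (by linarith)
      have := mq (show (A.w - A.h : ℤ) ≤ z by omega)
      rw [hz]; linarith

/-- `ep = -1`, `0 < V`, low row -/
theorem edgeE5 (h : TL T) (o : OV T n U S) (f : FT T n U) (hD : A.D < A.q * A.h) (he : T.ep = -1)
    (hV : 0 < U + S) (hS : S ≤ 0) : False :=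
  sE5 h o f hD he hV (by linarith)

/-- `ep = -1`, `0 < V`, high row -/
theorem edgeE6 (h : TL T) (o : OV T n U S) (f : FT T n U) (hD : A.D < A.q * A.h) (he : T.ep = -1)
    (hV : 0 < U + S) (hS : A.q * A.h - A.q * A.w ≤ S) : False :=
  sE6 h o f hD he hV (by linarith)

end Pool.Agent.H81.HE
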