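import Pool.Agent.H81.HP.Mn
import Pool.Agent.H81.LU.Base

/-!
# A general class and a class of a given row: interface
-/

namespace Pool.Agent.H81.HE

open Pool.Agent.H78.RT
open Pool.Agent.H78.Tie
open Pool.Agent.H78.Tie.TAp
open Pool.Agent.H78.SV
open Pool.Agent.H78.HL (TL OV FT CR Opp W_le_D)
open Pool.Agent.H81.LT (fnil fcons exK res)
open Pool.Agent.H81.LU (JK)
open Pool.Agent.H81.HP (run0 mkZ)
open Pool.Agent.H81.AP (LF dot dot_nil dot_nil' dot_cons AllNn AllNe)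

variable {A : TAp} {T : A.Tie} {n k r U S a V b : ℤ}

/-- the base facts -/
structure PK (A : TAp) (T : A.Tie) (n k r U S a V b : ℤ) : Prop where
  d : ∃ sx : ℤ, (sx = 1 ∨ sx = -1) ∧ ST A T sx
  cn : IsC A n U S a
  cr : IsC A r V (A.q * k) b
  a0 : 1 ≤ a
  a1 : a + 1 ≤ A.D
  b0 : 1 ≤ b
  b1 : b + 1 ≤ A.D
  V1 : 2 * V ≤ NN A
  V0 : -NN A ≤ 2 * V
  D0 : A.q * (A.w : ℤ) ≤ A.D
  D1 : A.D + 1 ≤ A.q * (A.h : ℤ)
  x0 : A.q * (A.w : ℤ) + A.q * T.x ≤ A.q * A.h
  x1 : A.q * (A.w : ℤ) - A.q * T.x ≤ A.q * A.h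
  f : A.D + 1 ≤ a + th A T.t

theorem PK.go (h : PK A T n k r U S a V b) {sp ep : Bool} (hsg : A.sg = sgv sp)
    (hep : T.ep = sgv ep) {K : LF} (hF : dot K (1 :: env A T [a, S, U, b, V]) = A.q * k)
    {g la : List LF} (hg : AllNn (env A T [a, S, U, b, V]) g)
    (hla : ∀ F ∈ la, dot F (res (sgv ep * sgv sp) A.D a b) = 0)
    {t : Pool.Agent.H78.RT.T} (ht : (mkZ sp ep (JK K) g [] la).chk t = true) : False := by
  obtain ⟨sx, hsx, d⟩ := h.d
  have cj := h.cn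
  have cr := h.cr
  refine run0 hsx d hsg hep (J := JK K) (g := g) (ne := []) (la := la)
    (r := [a, S, U, b, V]) ?_ hg trivial ?_ ht
  · refine ⟨⟨n, ?_⟩, ⟨r, ?_⟩, trivial⟩
    · unfold LR.Cl env
      simp only [dot_cons, dot_nil]
      convert cj using 1 <;> ring
    · unfold LR.Cl
      rw [hF]
      unfold env
      simp only [dot_cons, dot_nil]
      convert cr using 1 <;> ring
  · intro F hF
    have h1 := d.q_th
    rw [hsg, hep] at h1
    obtain ⟨s, hs, -⟩ := cj.1.2.1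
    have h2 : List.Forall₂ (fun a b => (A.q : ℤ) ∣ a - b) (1 :: env A T [a, S, U, b, V])
        (res (sgv ep * sgv sp) A.D a b) := by
      unfold env res
      refine .cons (by simp) (.cons (by rw [sub_zero]; exact dvd_mul_left _ _)
        (.cons (by simp) (.cons (by simp) (.cons (by simp) (.cons (by simp) (.cons h1
        (.cons (by simp) (.cons (by simp) (.cons ⟨s, by rw [hs]; ring⟩ (.cons cj.1.mod
        (.cons (by simp) (.cons cr.1.mod .nil))))))))))))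
    have := Pool.Agent.H81.LT.dot_dvd (F := F) h2
    rwa [hla F hF, sub_zero] at this

theorem pk (h : TL T) (o : OV T n U S) (f : FT T n U) (hD : A.D < A.q * A.h)
    (hk : ¬ (A.p : ℤ) ∣ k) : ∃ r V b, PK A T n k r U S (th A n) V b := by
  have hq := A.q_pos'
  have hx1 := h.x1
  have hw := h.hw
  have cn := o.cn
  rw [abs_lt] at hx1
  have a1 : (A.q : ℤ) * (A.w + T.x) ≤ A.q * A.h :=
    mul_le_mul_of_nonneg_left (by have := le_abs_self T.x; omega) hq.le
  have a2 : (A.q : ℤ) * (A.w - T.x) ≤ A.q * A.h :=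
    mul_le_mul_of_nonneg_left (by have := neg_abs_le T.x; omega) hq.le
  obtain ⟨r, V, cr, b0, b1, V1, V0⟩ := exK A hk
  refine ⟨r, V, _, ?_, cn, cr, th_pos A cn.2.1, th_ltD A cn.2.2, b0, b1, V1, V0,
    (W_le_D h).le, hD, by linarith, by linarith, f.f⟩
  rcases lt_or_gt_of_ne h.x0 with h0 | h0
  · exact ⟨-1, Or.inr rfl, ⟨h.F, h.hs, h.ht, by omega, by omega⟩⟩
  · exact ⟨1, Or.inl rfl, ⟨h.F, h.hs, h.ht, by omega, by omega⟩⟩

end Pool.Agent.H81.HE
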