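import Pool.Agent.H81.HE.TmpE4a
import Pool.Agent.H81.HE.TmpE4b
import Pool.Agent.H81.HE.TmpE4c
import Pool.Agent.H81.HE.TmpE4d
import Pool.Agent.H81.HE.TmpE5
import Pool.Agent.H81.HE.TmpE6
import Pool.Agent.H81.HE.TmmE4a
import Pool.Agent.H81.HE.TmmE4b
import Pool.Agent.H81.HE.TmmE4c
import Pool.Agent.H81.HE.TmmE4d
import Pool.Agent.H81.HE.TmmE5
import Pool.Agent.H81.HE.TmmE6
import Pool.Agent.H81.HE.Base

/-!
# The edge cells
-/

set_option linter.all false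

namespace Pool.Agent.H81.HE

open Pool.Agent.H78.RT
open Pool.Agent.H78.Tie
open Pool.Agent.H78.Tie.TAp
open Pool.Agent.H78.SV
open Pool.Agent.H81.LT (fnil fcons res)
open Pool.Agent.H81.AP (LF dot dot_nil dot_nil' dot_cons AllNn AllNe)

variable {A : TAp} {T : A.Tie} {n r U S a V b : ℤ}

theorem c_mpE4a (h : PK A T n (-(A.h : ℤ)) r U S a V b) (hsg : A.sg = 1) (hep : T.ep = -1)
    (e1 : 0 ≤ U - 2) (e2 : 0 ≤ A.q * A.w - 1 - U) (e3 : 0 ≤ -(U + S) - 1) (e4 : 0 ≤ (U + S) + A.q * A.h - 1) (e5 : 0 ≤ -(A.q * A.h) - S - A.q) : False := by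
  refine h.go (sp := true) (ep := false) hsg hep (K := [0, 0, 0, -1]) ?_ (g := mpE4a_g) (la := mpE4a_q) ?_ ?_ mpE4a_k
  · unfold env
    simp only [dot_cons, dot_nil]
    ring
  · obtain ⟨-, -, -, k1, k2, k3, k4, k5, k6, k7, k8, k9, k10, k11⟩ := h
    unfold mpE4a_g env
    simp only [AllNn, dot_cons, dot_nil]
    refine ⟨?_, ?_, ?_, ?_, ?_, ?_, ?_, ?_, ?_, ?_, ?_, ?_, ?_, trivial⟩ <;> linarith
  · unfold mpE4a_q
    repeat' first | exact fnil | refine fcons ?_ ?_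
    all_goals (simp only [res, sgv, dot_cons, dot_nil]; ring)

theorem c_mpE4b (h : PK A T n (-1) r U S a V b) (hsg : A.sg = 1) (hep : T.ep = -1)
    (e1 : 0 ≤ U - 2) (e2 : 0 ≤ A.q * A.w - 1 - U) (e3 : 0 ≤ -(U + S) - 1) (e4 : 0 ≤ (U + S) + A.q * A.h - 1) (e5 : 0 ≤ -(A.q * A.h) - S) (e6 : 0 ≤ S + A.q * A.h) : False := by
  refine h.go (sp := true) (ep := false) hsg hep (K := [0, 0, 0, 0, 0, 0, 0, -1]) ?_ (g := mpE4b_g) (la := mpE4b_q) ?_ ?_ mpE4b_k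
  · unfold env
    simp only [dot_cons, dot_nil]
    ring
  · obtain ⟨-, -, -, k1, k2, k3, k4, k5, k6, k7, k8, k9, k10, k11⟩ := h
    unfold mpE4b_g env
    simp only [AllNn, dot_cons, dot_nil]
    refine ⟨?_, ?_, ?_, ?_, ?_, ?_, ?_, ?_, ?_, ?_, ?_, ?_, ?_, ?_, trivial⟩ <;> linarith
  · unfold mpE4b_q
    repeat' first | exact fnil | refine fcons ?_ ?_
    all_goals (simp only [res, sgv, dot_cons, dot_nil]; ring)

theorem c_mpE4c (h : PK A T n (A.h : ℤ) r U S a V b) (hsg : A.sg = 1) (hep : T.ep = -1)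
    (e1 : 0 ≤ U - 2) (e2 : 0 ≤ A.q * A.w - 1 - U) (e3 : 0 ≤ -(U + S) - 1) (e4 : 0 ≤ (U + S) + A.q * A.h - 1) (e5 : 0 ≤ S + A.q * A.h - A.q) (e6 : 0 ≤ A.q * A.w - A.q * A.h - S - A.q) : False := by
  refine h.go (sp := true) (ep := false) hsg hep (K := [0, 0, 0, 1]) ?_ (g := mpE4c_g) (la := mpE4c_q) ?_ ?_ mpE4c_k
  · unfold env
    simp only [dot_cons, dot_nil]
    ring
  · obtain ⟨-, -, -, k1, k2, k3, k4, k5, k6, k7, k8, k9, k10, k11⟩ := h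
    unfold mpE4c_g env
    simp only [AllNn, dot_cons, dot_nil]
    refine ⟨?_, ?_, ?_, ?_, ?_, ?_, ?_, ?_, ?_, ?_, ?_, ?_, ?_, ?_, ?_, trivial⟩ <;> linarith
  · unfold mpE4c_q
    repeat' first | exact fnil | refine fcons ?_ ?_
    all_goals (simp only [res, sgv, dot_cons, dot_nil]; ring)

theorem c_mpE4d (h : PK A T n 1 r U S a V b) (hsg : A.sg = 1) (hep : T.ep = -1)
    (e1 : 0 ≤ U - 2) (e2 : 0 ≤ A.q * A.w - 1 - U) (e3 : 0 ≤ -(U + S) - 1) (e4 : 0 ≤ (U + S) + A.q * A.h - 1) (e5 : 0 ≤ S + A.q * A.h - A.q * A.w) (e6 : 0 ≤ A.q * A.w - A.q * A.h - S) : False := by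
  refine h.go (sp := true) (ep := false) hsg hep (K := [0, 0, 0, 0, 0, 0, 0, 1]) ?_ (g := mpE4d_g) (la := mpE4d_q) ?_ ?_ mpE4d_k
  · unfold env
    simp only [dot_cons, dot_nil]
    ring
  · obtain ⟨-, -, -, k1, k2, k3, k4, k5, k6, k7, k8, k9, k10, k11⟩ := h
    unfold mpE4d_g env
    simp only [AllNn, dot_cons, dot_nil]
    refine ⟨?_, ?_, ?_, ?_, ?_, ?_, ?_, ?_, ?_, ?_, ?_, ?_, ?_, ?_, ?_, trivial⟩ <;> linarith
  · unfold mpE4d_q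
    repeat' first | exact fnil | refine fcons ?_ ?_
    all_goals (simp only [res, sgv, dot_cons, dot_nil]; ring)

theorem c_mpE5 (h : PK A T n (A.h : ℤ) r U S a V b) (hsg : A.sg = 1) (hep : T.ep = -1)
    (e1 : 0 ≤ U - 2) (e2 : 0 ≤ A.q * A.w - 1 - U) (e3 : 0 ≤ (U + S) - 1) (e4 : 0 ≤ A.q * A.h - 1 - (U + S)) (e5 : 0 ≤ -S) : False := by
  refine h.go (sp := true) (ep := false) hsg hep (K := [0, 0, 0, 1]) ?_ (g := mpE5_g) (la := mpE5_q) ?_ ?_ mpE5_k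
  · unfold env
    simp only [dot_cons, dot_nil]
    ring
  · obtain ⟨-, -, -, k1, k2, k3, k4, k5, k6, k7, k8, k9, k10, k11⟩ := h
    unfold mpE5_g env
    simp only [AllNn, dot_cons, dot_nil]
    refine ⟨?_, ?_, ?_, ?_, ?_, ?_, ?_, ?_, ?_, ?_, ?_, ?_, ?_, ?_, trivial⟩ <;> linarith
  · unfold mpE5_q
    repeat' first | exact fnil | refine fcons ?_ ?_
    all_goals (simp only [res, sgv, dot_cons, dot_nil]; ring)

theorem c_mpE6 (h : PK A T n (-1) r U S a V b) (hsg : A.sg = 1) (hep : T.ep = -1)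
    (e1 : 0 ≤ U - 2) (e2 : 0 ≤ A.q * A.w - 1 - U) (e3 : 0 ≤ (U + S) - 1) (e4 : 0 ≤ A.q * A.h - 1 - (U + S)) (e5 : 0 ≤ S - A.q * A.h + A.q * A.w) : False := by
  refine h.go (sp := true) (ep := false) hsg hep (K := [0, 0, 0, 0, 0, 0, 0, -1]) ?_ (g := mpE6_g) (la := mpE6_q) ?_ ?_ mpE6_k
  · unfold env
    simp only [dot_cons, dot_nil]
    ring
  · obtain ⟨-, -, -, k1, k2, k3, k4, k5, k6, k7, k8, k9, k10, k11⟩ := h
    unfold mpE6_g env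
    simp only [AllNn, dot_cons, dot_nil]
    refine ⟨?_, ?_, ?_, ?_, ?_, ?_, ?_, ?_, ?_, ?_, ?_, ?_, ?_, trivial⟩ <;> linarith
  · unfold mpE6_q
    repeat' first | exact fnil | refine fcons ?_ ?_
    all_goals (simp only [res, sgv, dot_cons, dot_nil]; ring)

theorem c_mmE4a (h : PK A T n (-(A.h : ℤ)) r U S a V b) (hsg : A.sg = -1) (hep : T.ep = -1)
    (e1 : 0 ≤ U - 2) (e2 : 0 ≤ A.q * A.w - 1 - U) (e3 : 0 ≤ -(U + S) - 1) (e4 : 0 ≤ (U + S) + A.q * A.h - 1) (e5 : 0 ≤ -(A.q * A.h) - S - A.q) : False := by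
  refine h.go (sp := false) (ep := false) hsg hep (K := [0, 0, 0, -1]) ?_ (g := mmE4a_g) (la := mmE4a_q) ?_ ?_ mmE4a_k
  · unfold env
    simp only [dot_cons, dot_nil]
    ring
  · obtain ⟨-, -, -, k1, k2, k3, k4, k5, k6, k7, k8, k9, k10, k11⟩ := h
    unfold mmE4a_g env
    simp only [AllNn, dot_cons, dot_nil]
    refine ⟨?_, ?_, ?_, ?_, ?_, ?_, ?_, ?_, ?_, ?_, ?_, ?_, ?_, trivial⟩ <;> linarith
  · unfold mmE4a_q
    repeat' first | exact fnil | refine fcons ?_ ?_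
    all_goals (simp only [res, sgv, dot_cons, dot_nil]; ring)

theorem c_mmE4b (h : PK A T n (-1) r U S a V b) (hsg : A.sg = -1) (hep : T.ep = -1)
    (e1 : 0 ≤ U - 2) (e2 : 0 ≤ A.q * A.w - 1 - U) (e3 : 0 ≤ -(U + S) - 1) (e4 : 0 ≤ (U + S) + A.q * A.h - 1) (e5 : 0 ≤ -(A.q * A.h) - S) (e6 : 0 ≤ S + A.q * A.h) : False := by
  refine h.go (sp := false) (ep := false) hsg hep (K := [0, 0, 0, 0, 0, 0, 0, -1]) ?_ (g := mmE4b_g) (la := mmE4b_q) ?_ ?_ mmE4b_k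
  · unfold env
    simp only [dot_cons, dot_nil]
    ring
  · obtain ⟨-, -, -, k1, k2, k3, k4, k5, k6, k7, k8, k9, k10, k11⟩ := h
    unfold mmE4b_g env
    simp only [AllNn, dot_cons, dot_nil]
    refine ⟨?_, ?_, ?_, ?_, ?_, ?_, ?_, ?_, ?_, ?_, ?_, ?_, ?_, ?_, trivial⟩ <;> linarith
  · unfold mmE4b_q
    repeat' first | exact fnil | refine fcons ?_ ?_
    all_goals (simp only [res, sgv, dot_cons, dot_nil]; ring)

theorem c_mmE4c (h : PK A T n (-(A.h : ℤ)) r U S a V b) (hsg : A.sg = -1) (hep : T.ep = -1)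
    (e1 : 0 ≤ U - 2) (e2 : 0 ≤ A.q * A.w - 1 - U) (e3 : 0 ≤ -(U + S) - 1) (e4 : 0 ≤ (U + S) + A.q * A.h - 1) (e5 : 0 ≤ S + A.q * A.h - A.q) (e6 : 0 ≤ A.q * A.w - A.q * A.h - S - A.q) : False := by
  refine h.go (sp := false) (ep := false) hsg hep (K := [0, 0, 0, -1]) ?_ (g := mmE4c_g) (la := mmE4c_q) ?_ ?_ mmE4c_k
  · unfold env
    simp only [dot_cons, dot_nil]
    ring
  · obtain ⟨-, -, -, k1, k2, k3, k4, k5, k6, k7, k8, k9, k10, k11⟩ := h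
    unfold mmE4c_g env
    simp only [AllNn, dot_cons, dot_nil]
    refine ⟨?_, ?_, ?_, ?_, ?_, ?_, ?_, ?_, ?_, ?_, ?_, ?_, ?_, ?_, ?_, trivial⟩ <;> linarith
  · unfold mmE4c_q
    repeat' first | exact fnil | refine fcons ?_ ?_
    all_goals (simp only [res, sgv, dot_cons, dot_nil]; ring)

theorem c_mmE4d (h : PK A T n 1 r U S a V b) (hsg : A.sg = -1) (hep : T.ep = -1)
    (e1 : 0 ≤ U - 2) (e2 : 0 ≤ A.q * A.w - 1 - U) (e3 : 0 ≤ -(U + S) - 1) (e4 : 0 ≤ (U + S) + A.q * A.h - 1) (e5 : 0 ≤ S + A.q * A.h - A.q * A.w) (e6 : 0 ≤ A.q * A.w - A.q * A.h - S) : False := by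
  refine h.go (sp := false) (ep := false) hsg hep (K := [0, 0, 0, 0, 0, 0, 0, 1]) ?_ (g := mmE4d_g) (la := mmE4d_q) ?_ ?_ mmE4d_k
  · unfold env
    simp only [dot_cons, dot_nil]
    ring
  · obtain ⟨-, -, -, k1, k2, k3, k4, k5, k6, k7, k8, k9, k10, k11⟩ := h
    unfold mmE4d_g env
    simp only [AllNn, dot_cons, dot_nil]
    refine ⟨?_, ?_, ?_, ?_, ?_, ?_, ?_, ?_, ?_, ?_, ?_, ?_, ?_, ?_, ?_, trivial⟩ <;> linarith
  · unfold mmE4d_q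
    repeat' first | exact fnil | refine fcons ?_ ?_
    all_goals (simp only [res, sgv, dot_cons, dot_nil]; ring)

theorem c_mmE5 (h : PK A T n (A.h : ℤ) r U S a V b) (hsg : A.sg = -1) (hep : T.ep = -1)
    (e1 : 0 ≤ U - 2) (e2 : 0 ≤ A.q * A.w - 1 - U) (e3 : 0 ≤ (U + S) - 1) (e4 : 0 ≤ A.q * A.h - 1 - (U + S)) (e5 : 0 ≤ -S) : False := by
  refine h.go (sp := false) (ep := false) hsg hep (K := [0, 0, 0, 1]) ?_ (g := mmE5_g) (la := mmE5_q) ?_ ?_ mmE5_k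
  · unfold env
    simp only [dot_cons, dot_nil]
    ring
  · obtain ⟨-, -, -, k1, k2, k3, k4, k5, k6, k7, k8, k9, k10, k11⟩ := h
    unfold mmE5_g env
    simp only [AllNn, dot_cons, dot_nil]
    refine ⟨?_, ?_, ?_, ?_, ?_, ?_, ?_, ?_, ?_, ?_, ?_, ?_, ?_, ?_, trivial⟩ <;> linarith
  · unfold mmE5_q
    repeat' first | exact fnil | refine fcons ?_ ?_
    all_goals (simp only [res, sgv, dot_cons, dot_nil]; ring)

theorem c_mmE6 (h : PK A T n (-1) r U S a V b) (hsg : A.sg = -1) (hep : T.ep = -1)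
    (e1 : 0 ≤ U - 2) (e2 : 0 ≤ A.q * A.w - 1 - U) (e3 : 0 ≤ (U + S) - 1) (e4 : 0 ≤ A.q * A.h - 1 - (U + S)) (e5 : 0 ≤ S - A.q * A.h + A.q * A.w) : False := by
  refine h.go (sp := false) (ep := false) hsg hep (K := [0, 0, 0, 0, 0, 0, 0, -1]) ?_ (g := mmE6_g) (la := mmE6_q) ?_ ?_ mmE6_k
  · unfold env
    simp only [dot_cons, dot_nil]
    ring
  · obtain ⟨-, -, -, k1, k2, k3, k4, k5, k6, k7, k8, k9, k10, k11⟩ := h
    unfold mmE6_g env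
    simp only [AllNn, dot_cons, dot_nil]
    refine ⟨?_, ?_, ?_, ?_, ?_, ?_, ?_, ?_, ?_, ?_, ?_, ?_, ?_, trivial⟩ <;> linarith
  · unfold mmE6_q
    repeat' first | exact fnil | refine fcons ?_ ?_
    all_goals (simp only [res, sgv, dot_cons, dot_nil]; ring)

end Pool.Agent.H81.HE
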